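import Pool.Agent.V11324.Derrw

set_option autoImplicit false

/-! Polynomially reinforced directed edge reinforced random walks are not trapped for small `γ`. -/

namespace Pool.Agent.Results.MP_856411_pr.NoTrapping

open MeasureTheory Pool.Agent.V11324.Derrw

/-- **Theorem.** Let `G` be a connected, locally finite simple graph with at least two vertices and
let `0 < γ`. If `γ ≤ 1/2`, or if `γ ≤ 1` and some vertex of `G` has degree different from two, then
the directed edge reinforced random walk with polynomial reinforcement of parameter `γ` exists and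
is almost surely not trapped in a directed circuit. -/
theorem result {V : Type*} [Nontrivial V] (G : SimpleGraph V) [G.LocallyFinite]
    (hconn : G.Connected) (γ : ℝ) (hγ : 0 < γ)
    (h : γ ≤ 1 / 2 ∨ (γ ≤ 1 ∧ ∃ x, G.degree x ≠ 2)) (v : V) :
    (∃ (_ : MeasurableSpace (ℕ → V)) (P : Measure (ℕ → V)), IsProbabilityMeasure P ∧
      IsWalk G γ v P fun n ω => ω n) ∧
    ∀ {Ω : Type*} [MeasurableSpace Ω] (P : Measure Ω) [IsProbabilityMeasure P] (X : ℕ → Ω → V),
      IsWalk G γ v P X → P {ω | Trapped G fun n => X n ω} = 0 := by
  refine ⟨exists_walk G hconn γ v, ?_⟩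
  intro Ω _ P _ X hX
  have := countable_of_connected G hconn
  exact prob_trapped_eq_zero G hγ hconn h hX

end Pool.Agent.Results.MP_856411_pr.NoTrapping
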